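import Mathlib

/-!
# Numbers that are independent of a family of fields
-/

set_option autoImplicit false

namespace Run7.h16.OT

/-- The complex number `z` is a product of elements of the fields `K i`, embedded in the field of
complex numbers in any way. -/
def IsProductFrom {I : Type} (K : I → Type) [∀ i, Field (K i)] (z : ℂ) : Prop :=
  z ∈ Submonoid.closure {z : ℂ | ∃ (i : I) (φ : K i →+* ℂ) (x : K i), z = φ x}

/-- The number `ρ` is not zero, and if some positive power of `ρ` is a product of elements of the
fields `K i` then some positive power of `ρ` is real. -/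
def Outside {I : Type} (K : I → Type) [∀ i, Field (K i)] (ρ : ℂ) : Prop :=
  ρ ≠ 0 ∧ ((∃ n : ℕ, 0 < n ∧ IsProductFrom K (ρ ^ n)) → ∃ n : ℕ, 0 < n ∧ (ρ ^ n).im = 0)

end Run7.h16.OT
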