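import Mathlib
import Pool.Agent.Run7.h16.OT.Def
import Pool.Agent.Y1.CT.UnrelRel

/-!
# There are no relations between numbers of maximal angle rank and a number outside of the fields
-/

set_option autoImplicit false
set_option linter.unusedSectionVars false
set_option linter.unusedVariables false

namespace Run7.h16.OT

open NumberField Finset Module Polynomial Pool.Agent.H204R3.CM Pool.Agent.H977R3.CM
  Pool.Agent.TH170.CM Pool.Agent.TH170.MF Pool.Agent.TH170.FW Pool.Agent.H204R3.GP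
  Pool.Agent.TH170.GS Pool.Agent.W484.HS Pool.Agent.TH170 Pool.Agent.Y137.MV Pool.Agent.Y1.KN
  Pool.Agent.Y1.CT

variable {p : ℕ} [Fact p.Prime] {a : ℕ} {I : Type} [Fintype I]
  {K : I → Type} [∀ i, Field (K i)] [∀ i, NumberField (K i)] [∀ i, IsCMField (K i)]

theorem outside_one {I : Type} (K : I → Type) [∀ i, Field (K i)] : Outside K 1 :=
  ⟨one_ne_zero, fun _ => ⟨1, one_pos, by simp⟩⟩

theorem isProductFrom_emb {i : I} (φ : K i →+* ℂ) (x : K i) : IsProductFrom K (φ x) :=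
  Submonoid.subset_closure ⟨i, φ, x, rfl⟩

/-- There are no relations with numbers outside of the fields. -/
theorem exactPair_out {π : ∀ i, K i} (hang : MaximalAngleRank (p ^ a) π)
    (hw : ∀ i, π i * IsCMField.complexConj (K i) (π i) = (p : K i) ^ a) (f : I → ℤ[X])
    (hf : ∀ i, IsPolyOf (π i) (f i)) (s : ℕ) (hs : 0 < s) (ρ : ℂ) (hρ : Outside K ρ) :
    ExactPairK (fun z : Root f => (z : ℂ) ^ s) (((p ^ a : ℕ) : ℂ) ^ s) ρ := by
  classical
  intro n c N hN hn ys hlen hrel hpw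
  have hp0 : (p : ℂ) ≠ 0 := Nat.cast_ne_zero.2 (Fact.out : p.Prime).ne_zero
  have hq0 : ((p ^ a : ℕ) : ℂ) ≠ 0 := by
    push_cast
    exact pow_ne_zero _ hp0
  have hπ0 : ∀ i, π i ≠ 0 := by
    intro i h0
    have h1 := hw i
    rw [h0, zero_mul] at h1
    exact pow_ne_zero a (Nat.cast_ne_zero.2 (Fact.out : p.Prime).ne_zero) h1.symm
  let Y : Type := Σ i, (K i →+* ℂ)
  let w : Y → ℂ := fun y => y.2 (π y.1)
  have hw0 : ∀ y, w y ≠ 0 := fun y => (_root_.map_ne_zero _).2 (hπ0 _)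
  have hz : ∀ z : Root f, ∃ y : Y, w y = z := by
    rintro ⟨z, i, hi⟩
    obtain ⟨φ, hφ⟩ := (hf i).2 z hi
    exact ⟨⟨i, φ⟩, hφ⟩
  choose idx hidx using hz
  have hcc : ∀ (i : I) (ψ : K i →+* ℂ),
      ComplexEmbedding.conjugate (ComplexEmbedding.conjugate ψ) = ψ := by
    intro i ψ
    ext x
    simp [ComplexEmbedding.conjugate_coe_eq]
  let inv : Y → Y := fun z => ⟨z.1, ComplexEmbedding.conjugate z.2⟩
  let tr : Y ≃ Y := ⟨inv, inv, fun y => Sigma.ext rfl (heq_of_eq (hcc _ _)),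
    fun y => Sigma.ext rfl (heq_of_eq (hcc _ _))⟩
  let cnt : Y → ℕ := fun y => (ys.map idx).count y
  have hrel1 : ((∏ y, w y ^ (s * cnt y)) * ρ) ^ N = ((((p ^ a : ℕ) : ℂ) ^ s) ^ c) ^ N := by
    rw [← hrel, prod_count idx w (fun z : Root f => (z : ℂ)) (fun z => (hidx z).symm) s ys]
  have hcnt : ∀ y : Y, cnt y = cnt (inv y) := by
    rintro ⟨i, φ⟩
    have hX0 : ∏ y, w y ^ (s * cnt y) ≠ 0 :=
      Finset.prod_ne_zero_iff.2 fun y _ => pow_ne_zero _ (hw0 y)
    -- a power of `ρ` is a product of elements of the fields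
    have hprod : IsProductFrom K (ρ ^ N) := by
      have h1 : ρ ^ N = φ ((((p ^ a : ℕ) : K i) ^ s) ^ (c * N)) *
          ∏ y : Y, y.2 (((π y.1) ^ (s * cnt y * N))⁻¹) := by
        have h2 : φ ((((p ^ a : ℕ) : K i) ^ s) ^ (c * N)) =
            ((((p ^ a : ℕ) : ℂ) ^ s) ^ c) ^ N := by
          rw [map_zpow₀, map_pow, map_natCast, zpow_mul, zpow_natCast]
        have h3 : ∏ y : Y, y.2 (((π y.1) ^ (s * cnt y * N))⁻¹) =
            ((∏ y, w y ^ (s * cnt y)) ^ N)⁻¹ := by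
          rw [← Finset.prod_pow, ← Finset.prod_inv_distrib]
          refine Finset.prod_congr rfl fun y _ => ?_
          rw [map_inv₀, map_pow, pow_mul]
        rw [h2, h3, ← hrel1, mul_pow]
        field_simp
      rw [h1]
      exact Submonoid.mul_mem _ (isProductFrom_emb φ _)
        (Submonoid.prod_mem _ fun y _ => isProductFrom_emb y.2 _)
    obtain ⟨t, ht, him⟩ := hρ.2 ⟨N, hN, hprod⟩
    have hconj : (starRingEnd ℂ) (ρ ^ t) = ρ ^ t := Complex.conj_eq_iff_im.2 him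
    -- the relation and its complex conjugate
    have hA : (∏ y, w y ^ (s * cnt y)) ^ (N * t) * ρ ^ (N * t) =
        ((((p ^ a : ℕ) : ℂ) ^ s) ^ c) ^ (N * t) := by
      rw [← mul_pow, pow_mul, hrel1, ← pow_mul]
    have hB : (∏ y, w (tr y) ^ (s * cnt y)) ^ (N * t) * ρ ^ (N * t) =
        ((((p ^ a : ℕ) : ℂ) ^ s) ^ c) ^ (N * t) := by
      have h1 := congrArg (starRingEnd ℂ) hA
      rw [map_mul, map_pow (starRingEnd ℂ) (∏ y, w y ^ (s * cnt y)), map_prod] at h1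
      have h2 : (starRingEnd ℂ) (ρ ^ (N * t)) = ρ ^ (N * t) := by
        rw [mul_comm, pow_mul, map_pow, hconj]
      rw [h2] at h1
      have h3 : (starRingEnd ℂ) (((((p ^ a : ℕ) : ℂ) ^ s) ^ c) ^ (N * t)) =
          ((((p ^ a : ℕ) : ℂ) ^ s) ^ c) ^ (N * t) := by
        rw [map_pow, map_zpow₀, map_pow, map_natCast]
      rw [h3] at h1
      rw [← h1]
      congr 2
      refine Finset.prod_congr rfl fun y _ => ?_
      rw [map_pow]
      rfl
    have hρ0 : ρ ^ (N * t) ≠ 0 := pow_ne_zero _ hρ.1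
    have hC : (∏ y, w (tr y) ^ (s * cnt y)) ^ (N * t) = (∏ y, w y ^ (s * cnt y)) ^ (N * t) :=
      mul_right_cancel₀ hρ0 (hB.trans hA.symm)
    have hD : ∏ y, w (tr y) ^ (s * cnt y) = ∏ y, w y ^ (s * cnt (tr.symm y)) := by
      refine Fintype.prod_equiv tr _ _ fun y => ?_
      rw [Equiv.symm_apply_apply]
    rw [hD, ← Finset.prod_pow, ← Finset.prod_pow] at hC
    have hE : ∏ y : Y, (y.2 (π y.1)) ^ (((s * (N * t) : ℕ) : ℤ) *
        ((cnt (tr.symm y) : ℤ) - cnt y)) = (((p ^ a : ℕ)) : ℂ) ^ (0 : ℤ) := by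
      have h1 : ∀ y : Y, (y.2 (π y.1)) ^ (((s * (N * t) : ℕ) : ℤ) *
          ((cnt (tr.symm y) : ℤ) - cnt y)) =
          (w y ^ (s * cnt (tr.symm y))) ^ (N * t) / (w y ^ (s * cnt y)) ^ (N * t) := by
        intro y
        change w y ^ _ = _
        rw [mul_sub, zpow_sub₀ (hw0 y), ← pow_mul, ← pow_mul, ← zpow_natCast, ← zpow_natCast]
        congr 2
        · push_cast
          ring
        · push_cast
          ring
      rw [Finset.prod_congr rfl (fun y _ => h1 y), Finset.prod_div_distrib, hC, zpow_zero]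
      exact div_self (Finset.prod_ne_zero_iff.2 fun y _ =>
        pow_ne_zero _ (pow_ne_zero _ (hw0 y)))
    have hF := hang 0 (fun y => ((s * (N * t) : ℕ) : ℤ) * ((cnt (tr.symm y) : ℤ) - cnt y)) hE i φ
    have hNt : ((s * (N * t) : ℕ) : ℤ) ≠ 0 := by
      exact_mod_cast (Nat.mul_pos hs (Nat.mul_pos hN ht)).ne'
    have hG := mul_left_cancel₀ hNt hF
    have h4 : tr.symm ⟨i, φ⟩ = ⟨i, ComplexEmbedding.conjugate φ⟩ := rfl
    have h5 : tr.symm ⟨i, ComplexEmbedding.conjugate φ⟩ = ⟨i, φ⟩ :=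
      Sigma.ext rfl (heq_of_eq (hcc _ _))
    rw [h4, h5] at hG
    change cnt ⟨i, φ⟩ = cnt ⟨i, ComplexEmbedding.conjugate φ⟩
    omega
  -- the first element of the list
  obtain ⟨z₀, hz₀⟩ := List.exists_mem_of_length_pos (l := ys) (by omega)
  have h1 : 0 < cnt (idx z₀) := List.count_pos_iff.2 (List.mem_map_of_mem hz₀)
  rw [hcnt] at h1
  obtain ⟨z₁, hz₁, h2⟩ := List.mem_map.1 (List.count_pos_iff.1 h1)
  have hne : z₀ ≠ z₁ := by
    rintro rfl
    have h3 : (idx z₀).2 = ComplexEmbedding.conjugate (idx z₀).2 := by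
      have h4 : idx z₀ = ⟨(idx z₀).1, ComplexEmbedding.conjugate (idx z₀).2⟩ := h2
      exact eq_of_heq (Sigma.mk.inj h4).2
    exact conj_ne _ h3.symm
  have hsymm : Std.Symm (fun y y' : Root f => (y : ℂ) ^ s * (y' : ℂ) ^ s ≠
      ((p ^ a : ℕ) : ℂ) ^ s) := ⟨by
    intro x y h h'
    exact h (by rw [mul_comm]; exact h')⟩
  refine hpw.forall hz₀ hz₁ hne ?_
  have h3 : (z₁ : ℂ) = ComplexEmbedding.conjugate (idx z₀).2 (π (idx z₀).1) := by
    rw [← hidx z₁, h2]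
  change (z₀ : ℂ) ^ s * (z₁ : ℂ) ^ s = _
  rw [h3, ← hidx z₀, ← mul_pow]
  congr 1
  have h4 := congrArg (idx z₀).2 (hw (idx z₀).1)
  rw [map_mul, IsCMField.complexEmbedding_complexConj, map_pow, map_natCast] at h4
  change (idx z₀).2 (π (idx z₀).1) * _ = _
  rw [ComplexEmbedding.conjugate_coe_eq, h4]
  push_cast
  rfl

theorem noRel_out {π : ∀ i, K i} (hang : MaximalAngleRank (p ^ a) π)
    (hw : ∀ i, π i * IsCMField.complexConj (K i) (π i) = (p : K i) ^ a) {f : I → ℤ[X]}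
    (hf : ∀ i, IsPolyOf (π i) (f i)) : NoRel f (p ^ a) (Outside K) :=
  ⟨fun i => (hf i).1, outside_one K, fun s hs ρ hρ => exactPair_out hang hw f hf s hs ρ hρ⟩

end Run7.h16.OT
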