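import Mathlib
import Pool.Agent.Y137.SL.Defs
import Pool.Agent.Run7.h16.OT.Def

/-!
# Abelian varieties over finitely generated fields with a given Frobenius element, and arbitrary smooth
varieties: definitions
-/

set_option autoImplicit false

namespace Run7.h16.OT

open NumberField Module Pool.Agent.Y137.MV Pool.Agent.Y137.SL

/-- The Tate classes on the products `A ^ n × U` are generated by those on `A ^ n` of degree two and
those on `U`, whenever `A` has a Frobenius element `γ` at a place with `p ^ a` elements in the
residue field with the characteristic polynomial `∏ i, minpoly (π i)` and the eigenvalues of `γ` on the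
cohomology of `U` are roots of a rational polynomial all of whose complex roots satisfy
`Outside K`. -/
def TateClassesSplit {p : ℕ} [Fact p.Prime] (a : ℕ) {I : Type} [Fintype I] (K : I → Type)
    [∀ i, Field (K i)] [∀ i, NumberField (K i)] [∀ i, IsCMField (K i)] (π : ∀ i, K i) : Prop :=
  ∀ (k : Type) [Field k] [CharZero k] (V : Type) [AddCommGroup V] [Module k V]
    [FiniteDimensional k V] (M : Type) [AddCommGroup M] [Module k M] [FiniteDimensional k M]
    (Γ : Type) [Group Γ] (ρ : Representation k Γ V) (τ : Representation k Γ M) (χ : Γ →* k)
    (γ : Γ), IsPolarised ρ χ γ p a π →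
    ∀ f : Polynomial ℚ, f ≠ 0 → Polynomial.aeval (τ γ) (f.map (algebraMap ℚ k)) = 0 →
    (∀ α : ℂ, Polynomial.aeval α f = 0 → Outside K α) → ClassesSplit ρ χ τ

end Run7.h16.OT
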