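import Mathlib
import Pool.Agent.Run7.h16.OT.TDef
import Pool.Agent.Run7.h16.OT.Rel
import Pool.Agent.Y1.TS.Split

/-!
# The splitting of the classes for numbers of maximal angle rank and eigenvalues outside of the fields
-/

set_option autoImplicit false
set_option linter.unusedSectionVars false
set_option linter.unusedVariables false

namespace Run7.h16.OT

open NumberField Module TensorProduct IntermediateField
open Pool.Agent.H204R3.CM Pool.Agent.H204R3.SP Pool.Agent.H204R3.GP Pool.Agent.Y137.MV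
  Pool.Agent.Y137.SL

/-- The condition on the eigenvalues. -/
theorem forces_outside {q : ℕ} {ι : Type} [Fintype ι] {F : ι → Type}
    [∀ i, Field (F i)] [∀ i, NumberField (F i)] [∀ i, IsCMField (F i)] {π : ∀ i, F i}
    {L : Type*} [Field L] [NumberField L] [IsGalois ℚ L] (j : L →+* ℂ)
    (hπ0 : ∀ i, π i ≠ 0) (hang : MaximalAngleRank q π) (β : L) (i : ι)
    (hf : Outside F (j β)) : Forces π β i := by
  classical
  intro T N I hN hβN φ
  let J : (Σ i, (F i →+* L)) → Σ i, (F i →+* ℂ) := fun x => ⟨x.1, j.comp x.2⟩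
  have hJ : Function.Injective J := by
    rintro ⟨a, φ⟩ ⟨b, ψ⟩ h
    simp only [J, Sigma.mk.injEq] at h
    obtain ⟨rfl, h⟩ := h
    rw [Pool.Agent.H194R3.CM.comp_injective j (eq_of_heq h)]
  let cnt : (Σ i, (F i →+* ℂ)) → ℤ := fun x =>
    ((Finset.univ.filter (fun l => J (I l) = x)).card : ℤ)
  have hval : ∀ x : (Σ i, (F i →+* ℂ)), x.2 (π x.1) ≠ 0 := fun x =>
    (_root_.map_ne_zero _).2 (hπ0 _)
  have hcc : ∀ (i : ι) (ψ : F i →+* ℂ),
      ComplexEmbedding.conjugate (ComplexEmbedding.conjugate ψ) = ψ := by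
    intro i ψ
    ext x
    simp [ComplexEmbedding.conjugate_coe_eq]
  have hprod : ∀ (M : ℕ),
      ∏ l, ((J (I l)).2 (π (J (I l)).1)) ^ M = ∏ x : (Σ i, (F i →+* ℂ)), (x.2 (π x.1)) ^
        ((M : ℤ) * cnt x) := by
    intro M
    have h2 : ∀ x : Σ i, (F i →+* ℂ), (x.2 (π x.1)) ^ ((M : ℤ) * cnt x) =
        ∏ l ∈ Finset.univ.filter (fun l => J (I l) = x), ((J (I l)).2 (π (J (I l)).1)) ^ M := by
      intro x
      have h3 : ∀ l ∈ Finset.univ.filter (fun l => J (I l) = x),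
          ((J (I l)).2 (π (J (I l)).1)) ^ M = (x.2 (π x.1)) ^ M := by
        intro l hl
        rw [(Finset.mem_filter.1 hl).2]
      rw [Finset.prod_congr rfl h3, Finset.prod_const, ← pow_mul]
      simp only [cnt]
      rw [← Nat.cast_mul, zpow_natCast]
    rw [Finset.prod_congr rfl (fun x _ => h2 x)]
    rw [Finset.prod_fiberwise (s := Finset.univ) (g := fun l => J (I l))
      (f := fun l => ((J (I l)).2 (π (J (I l)).1)) ^ M)]
  have hβ : (j β) ^ N = ∏ l, ((J (I l)).2 (π (J (I l)).1)) ^ N := by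
    have h1 := congrArg j hβN
    simp only [map_pow, map_prod] at h1
    exact h1
  have hout : IsProductFrom F ((j β) ^ N) := by
    rw [hβ]
    refine Submonoid.prod_mem _ fun l _ => Submonoid.pow_mem _ ?_ _
    exact isProductFrom_emb (J (I l)).2 _
  obtain ⟨t, ht, him⟩ := hf.2 ⟨N, hN, hout⟩
  have hconj : (starRingEnd ℂ) ((j β) ^ t) = (j β) ^ t := Complex.conj_eq_iff_im.2 him
  have hA : (j β) ^ (N * t) = ∏ x : (Σ i, (F i →+* ℂ)), (x.2 (π x.1)) ^
      (((N * t : ℕ) : ℤ) * cnt x) := by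
    rw [← hprod, pow_mul, hβ, ← Finset.prod_pow]
    refine Finset.prod_congr rfl fun l _ => ?_
    rw [← pow_mul]
  have hB : (j β) ^ (N * t) = ∏ x : (Σ i, (F i →+* ℂ)), (x.2 (π x.1)) ^
      (((N * t : ℕ) : ℤ) * cnt ⟨x.1, ComplexEmbedding.conjugate x.2⟩) := by
    have h1 := congrArg (starRingEnd ℂ) hA
    have h2 : (starRingEnd ℂ) ((j β) ^ (N * t)) = (j β) ^ (N * t) := by
      rw [mul_comm, pow_mul, map_pow, hconj]
    rw [h2, map_prod] at h1
    rw [h1]
    let e : (Σ i, (F i →+* ℂ)) ≃ (Σ i, (F i →+* ℂ)) :=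
      ⟨fun x => ⟨x.1, ComplexEmbedding.conjugate x.2⟩,
        fun x => ⟨x.1, ComplexEmbedding.conjugate x.2⟩,
        fun x => Sigma.ext rfl (heq_of_eq (hcc _ _)), fun x => Sigma.ext rfl (heq_of_eq (hcc _ _))⟩
    refine Fintype.prod_equiv e _ _ fun x => ?_
    have h3 : e x = ⟨x.1, ComplexEmbedding.conjugate x.2⟩ := rfl
    rw [h3]
    simp only [hcc]
    rw [map_zpow₀, ComplexEmbedding.conjugate_coe_eq]
  have hβ0 : (j β) ^ (N * t) ≠ 0 := pow_ne_zero _ hf.1
  have hrel : ∏ x : (Σ i, (F i →+* ℂ)), (x.2 (π x.1)) ^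
      (((N * t : ℕ) : ℤ) * cnt ⟨x.1, ComplexEmbedding.conjugate x.2⟩ -
        ((N * t : ℕ) : ℤ) * cnt x) = (q : ℂ) ^ (0 : ℤ) := by
    rw [zpow_zero]
    have h1 : ∀ x : (Σ i, (F i →+* ℂ)), (x.2 (π x.1)) ^
        (((N * t : ℕ) : ℤ) * cnt ⟨x.1, ComplexEmbedding.conjugate x.2⟩ -
          ((N * t : ℕ) : ℤ) * cnt x) =
        (x.2 (π x.1)) ^ (((N * t : ℕ) : ℤ) * cnt ⟨x.1, ComplexEmbedding.conjugate x.2⟩) /
        (x.2 (π x.1)) ^ (((N * t : ℕ) : ℤ) * cnt x) := fun x => zpow_sub₀ (hval x) _ _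
    rw [Finset.prod_congr rfl (fun x _ => h1 x), Finset.prod_div_distrib, ← hB, ← hA]
    exact div_self hβ0
  have hNt : ((N * t : ℕ) : ℤ) ≠ 0 := by
    exact_mod_cast (Nat.mul_pos hN ht).ne'
  have h2 := hang 0 _ hrel i (j.comp φ)
  simp only [← mul_sub, hcc] at h2
  have h3 := mul_left_cancel₀ hNt h2
  have h9 : cnt ⟨i, j.comp φ⟩ = cnt ⟨i, ComplexEmbedding.conjugate (j.comp φ)⟩ := by
    omega
  simp only [cnt] at h9
  have h4 : (Finset.univ.filter (fun l => I l = ⟨i, φ⟩)).card =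
      (Finset.univ.filter (fun l => J (I l) = ⟨i, j.comp φ⟩)).card := by
    congr 1
    ext l
    simp only [Finset.mem_filter, Finset.mem_univ, true_and]
    exact ⟨fun h => by rw [h], fun h => hJ h⟩
  have h5 : (Finset.univ.filter (fun l => I l = bar ⟨i, φ⟩)).card =
      (Finset.univ.filter (fun l => J (I l) =
        ⟨i, ComplexEmbedding.conjugate (j.comp φ)⟩)).card := by
    congr 1
    ext l
    simp only [Finset.mem_filter, Finset.mem_univ, true_and]
    have h6 : J (bar ⟨i, φ⟩) = ⟨i, ComplexEmbedding.conjugate (j.comp φ)⟩ := by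
      simp only [J, bar]
      rw [comp_cbar]
    rw [← h6]
    exact ⟨fun h => by rw [h], fun h => hJ h⟩
  rw [h4, h5]
  exact_mod_cast h9

theorem split_outside {p : ℕ} [Fact p.Prime] {a : ℕ}
    {ι : Type} [Fintype ι] {F : ι → Type} [∀ i, Field (F i)] [∀ i, NumberField (F i)]
    [∀ i, IsCMField (F i)] {π : ∀ i, F i} (hgen : ∀ i, ℚ⟮π i⟯ = ⊤)
    (hw : ∀ i, π i * IsCMField.complexConj (F i) (π i) = (p : F i) ^ a)
    (hang : MaximalAngleRank (p ^ a) π) : TateClassesSplit (p := p) a F π := by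
  classical
  intro k _ _ V _ _ _ M _ _ _ Γ _ ρ τ χ γ hp f hf0 hfγ hf
  obtain ⟨hss, ⟨ω, halt, hnd, hωρ⟩, hχ, hγ⟩ := hp
  have hπ0 : ∀ i, π i ≠ 0 := by
    intro i h0
    have h1 := hw i
    rw [h0, zero_mul] at h1
    exact pow_ne_zero a (Nat.cast_ne_zero.2 (Fact.out : p.Prime).ne_zero) h1.symm
  obtain ⟨L, hLa, hLb, j, h, hroots⟩ := exists_galois_roots F f hf0
  have hneat : Neat p a π L := neat_of_angle j hang
  have hun : ∀ β : L, Polynomial.aeval β f = 0 → ∀ i, Forces π β i := by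
    intro β hβ i
    have hα : Polynomial.aeval (j β) f = 0 := by
      have h1 := Polynomial.aeval_algHom_apply (RingHom.equivRatAlgHom L ℂ j) β f
      rw [hβ, map_zero] at h1
      exact h1
    exact forces_outside j hπ0 hang β i (hf (j β) hα)
  have hss' : ∀ Δ : Subgroup Γ, Δ.FiniteIndex → SemiUnder (ρ '' (Δ : Set Γ)) := by
    intro Δ hΔ U hU
    obtain ⟨U', h1, h2⟩ := hss Δ hΔ U (fun s hs u hu => hU _ ⟨s, hs, rfl⟩ u hu)
    refine ⟨U', ?_, h1⟩
    rintro _ ⟨s, hs, rfl⟩ u hu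
    exact h2 s hs u hu
  constructor
  · intro n m g hg
    have h1 := final_step ρ χ τ g hg (fun l => alt_of_comp ρ χ _ (fun c => by
      have h2 := comp_mem (L := L) ρ χ τ hgen hw j h hneat ω halt hnd hωρ hss' γ hχ hγ hun hroots
        hfγ (component_eqv hg c) l
      exact h2))
    refine Submodule.span_mono ?_ h1
    rintro x ⟨y, ⟨B, hB, hy⟩, w, hw, hx⟩
    refine ⟨B, w, hB, hw, fun v => ?_⟩
    rw [hx, hy]
  · intro n m g hg
    ext v
    have h1 : v = fun l => ∑ i, Pi.single i (v l i) := by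
      funext l
      exact (Finset.univ_sum_single (v l)).symm
    have h2 : g v = ∑ c : Fin (2 * m + 1) → Fin n,
        g.toMultilinearMap.compLinearMap
          (fun l => LinearMap.single k (fun _ : Fin n => V) (c l)) (fun l => v l (c l)) := by
      conv_lhs => rw [h1]
      exact g.toMultilinearMap.map_sum (fun l i => Pi.single i (v l i))
    rw [h2]
    refine Finset.sum_eq_zero fun c _ => ?_
    have h3 := odd_zero (L := L) ρ χ τ hgen hw j h hneat ω halt hnd hωρ γ hχ hγ hun hroots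
        hfγ (κ := Fin (2 * m + 1)) (by
          rw [Fintype.card_fin]
          exact ⟨m, rfl⟩) (component_eqv hg c)
    rw [h3]
    rfl

end Run7.h16.OT
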