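import Mathlib
import Pool.Agent.Y1.CT.CodimDefs
import Pool.Agent.Y1.CT.TypeDefs
import Pool.Agent.Run7.h16.OT.Def
import Pool.Agent.Run7.h16.OE.Def

/-!
# Products of abelian varieties and varieties with Frobenius eigenvalues outside of their fields:
statements
-/

set_option autoImplicit false

open CategoryTheory AlgebraicGeometry

universe u v w

namespace Run7.h16.OT

open Polynomial NumberField Pool.Agent.H914 Pool.Agent.H914.VarClass
  Pool.Agent.H914.VarClass.Obj Pool.Agent.W492.BB Pool.Agent.W484.CK Pool.Agent.Y1.CT
  Pool.Agent.TH170 Run7.h16.OE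

variable {k : Type u} [Field k] {𝒱 : VarClass k} {C : TheoryData.{u, v, 0} 𝒱 ℚ} {F : Type w}
  [Field F] (H : WeilTheoryData.{u, v, w} C F) {A Z : 𝒱.Obj}

/-- The eigenvalues of `π` on the cohomology of `Z` are roots of a nonzero rational polynomial all
of whose complex roots satisfy `Outside K`. -/
def AreOutside [CharZero F] {I : Type} (K : I → Type) [∀ i, Field (K i)] (π : Z ⟶ Z) : Prop :=
  ∃ χ : ℚ[X], χ ≠ 0 ∧ (∀ (ρ : F) (v : H.A Z), v ≠ 0 → H.up π v = ρ • v → aeval ρ χ = 0) ∧
    ∀ ρ : ℂ, aeval ρ χ = 0 → Outside K ρ

/-- `πA` is the Frobenius endomorphism of an abelian variety `A` over the field with `q ^ s`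
elements, isogenous to a product of powers of abelian varieties coming from the field with `q`
elements with characteristic polynomials `f i`; `Z` is any variety over the field with `q ^ s`
elements, such that the eigenvalues of its Frobenius endomorphism `πZ` on the cohomology and their
conjugates satisfy `Outside K`. -/
structure IsOutsidePair [CharZero F] {I : Type} (K : I → Type) [∀ i, Field (K i)]
    (q s : ℕ) (f : I → ℤ[X]) (πA : A ⟶ A) (πZ : Z ⟶ Z) : Prop where
  standard : IsStandard H
  pos : 0 < s
  abelian : IsAbelian H πA q s f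
  outside : AreOutside H K πZ

/-- `TateTimes K q f`: the following holds for the Chow groups `C` with rational coefficients of
all classes `𝒱` of varieties over fields `k` (finite, in the intended use), every Weil cohomology
theory `H` with coefficients in an algebraically closed field `F` of characteristic zero, all `A`,
`Z` as in `IsOutsidePair` and all `c`: the Tate conjecture holds for `A × Z` in codimension `c` if
and only if it holds for `Z` in all codimensions `c - i` with `0 ≤ i ≤ dim A`; the same for the Tate
conjecture together with semisimplicity. -/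
def TateTimes {I : Type} (K : I → Type) [∀ i, Field (K i)] (q : ℕ) (f : I → ℤ[X]) : Prop :=
  ∀ (k : Type) [Field k] (𝒱 : VarClass k) (C : TheoryData.{0, 0, 0} 𝒱 ℚ) [IsChow C]
    (F : Type) [Field F] [IsAlgClosed F] [CharZero F] (H : WeilTheoryData.{0, 0, 0} C F)
    [IsWeil H] (s : ℕ) (A Z : 𝒱.Obj) (πA : A ⟶ A) (πZ : Z ⟶ Z),
      IsOutsidePair H K q s f πA πZ → ∀ c : ℕ,
        (TateIn H (prodMap πA πZ) (q ^ s) c ↔ ∀ i ≤ A.dim, i ≤ c → TateIn H πZ (q ^ s) (c - i)) ∧
        (StrongTateIn H (prodMap πA πZ) (q ^ s) c ↔
          ∀ i ≤ A.dim, i ≤ c → StrongTateIn H πZ (q ^ s) (c - i))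

/-- `HomNumTimes K q f`: the following holds for the Chow groups `C` with rational coefficients of
all classes `𝒱` of varieties over fields `k` (finite, in the intended use), every Weil cohomology
theory `H` with coefficients in an algebraically closed field `F` of characteristic zero, all `A`,
`Z` as in `IsOutsidePair` where the Frobenius endomorphism `πA × πZ` acts on the Chow groups of
`A × Z` in the usual way, and all `c`: homological and numerical equivalence coincide for cycles of
codimension `c` on `A × Z` if and only if they coincide for cycles of codimension `c - i` on `Z` for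
all `0 ≤ i ≤ dim A`. -/
def HomNumTimes {I : Type} (K : I → Type) [∀ i, Field (K i)] (q : ℕ) (f : I → ℤ[X]) : Prop :=
  ∀ (k : Type) [Field k] (𝒱 : VarClass k) (C : TheoryData.{0, 0, 0} 𝒱 ℚ) [IsChow C]
    (F : Type) [Field F] [IsAlgClosed F] [CharZero F] (H : WeilTheoryData.{0, 0, 0} C F)
    [IsWeil H] (s : ℕ) (A Z : 𝒱.Obj) (πA : A ⟶ A) (πZ : Z ⟶ Z),
      IsOutsidePair H K q s f πA πZ → IsFrobenius C (prodMap πA πZ) (q ^ s) → ∀ c : ℕ,
        (HomNumIn H (A.prod Z) c ↔ ∀ i ≤ A.dim, i ≤ c → HomNumIn H Z (c - i))

end Run7.h16.OT
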